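import Pool.Agent.Helper15.EP.St

set_option autoImplicit false

open Polynomial

namespace Pool.Agent.Helper64.EP

open Pool.Agent.Helper15.FC Pool.Agent.Helper15.EP

theorem hTE1 (hAPE : StAPE) : StTE1 := by
  intro F _ _ k l δ hδ
  obtain ⟨C, hC1, hC⟩ := hAPE F l δ hδ
  refine ⟨C, hC1, ?_⟩
  intro x y h hh
  have hq : 0 < qr F := by
    have : 0 < Fintype.card F := Fintype.card_pos
    exact_mod_cast this
  have hcard : ((Tup F x).card : ℝ) = qr F ^ ((∑ i, x i : ℕ) : ℝ) := by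
    unfold Tup
    rw [Fintype.card_piFinset, Real.rpow_natCast]
    push_cast [card_Mn]
    exact Finset.prod_pow_eq_pow_sum Finset.univ x (qr F)
  have hterm : ∀ a ∈ Tup F x, |(AP y (∏ i, a i) h : ℝ) - AV y (∏ i, a i) h| ≤
      C * qr F ^ h.natDegree * Real.sqrt (qr F) ^ (∑ j, y j) *
        qr F ^ (δ * ((∑ i, x i : ℕ) : ℝ)) := by
    intro a ha
    have ha' : ∀ i, (a i).Monic ∧ (a i).natDegree = x i := by
      intro i
      exact mem_Mn.1 (Fintype.mem_piFinset.1 ha i)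
    have hm : (∏ i, a i).Monic := Polynomial.monic_prod_of_monic _ _ fun i _ => (ha' i).1
    have hd : (∏ i, a i).natDegree = ∑ i, x i := by
      rw [Polynomial.natDegree_prod_of_monic _ _ fun i _ => (ha' i).1]
      exact Finset.sum_congr rfl fun i _ => (ha' i).2
    have := hC y (∏ i, a i) h hm hh
    rwa [hd] at this
  refine (Finset.sum_le_card_nsmul _ _ _ hterm).trans (le_of_eq ?_)
  rw [nsmul_eq_mul, hcard]
  have h1 : qr F ^ ((1 + δ) * ((∑ i, x i : ℕ) : ℝ)) =
      qr F ^ ((∑ i, x i : ℕ) : ℝ) * qr F ^ (δ * ((∑ i, x i : ℕ) : ℝ)) := by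
    rw [← Real.rpow_add hq]
    congr 1
    ring
  rw [h1]
  ring

end Pool.Agent.Helper64.EP
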