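import Pool.Agent.Helper68.EP.St5

/-!
# Project EP (MP_cb927e_an), module XC (helper64)
-/

set_option autoImplicit false

open MeasureTheory Set Filter Topology
open scoped ENNReal RealInnerProductSpace

namespace Pool.Agent.Helper64.EP

open Pool.Agent.Helper68.EP Pool.Agent.Helper20.RG
open Pool.Agent.Helper20.RL (RQ Rich BM Fml)

theorem hXC : StXC := by
  intro G γ M n L hM0 hML hLn hn h1 h2
  have hpos : (0 : ℝ) < ((L : ℝ) + 1) * (M + 1) := by positivity
  have hGne : G.Nonempty := by
    rw [Finset.nonempty_iff_ne_empty]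
    intro h
    rw [h] at hn
    simp at hn
    linarith
  obtain ⟨h0, h0G, hmin⟩ := G.exists_min_image Prod.fst hGne
  set B : Finset (ℕ × ℕ) := G.filter (fun h => ¬ M ≤ γ h) with hB
  have hBmem : ∀ h ∈ B, h.1 ∈ Finset.Icc h0.1 (h0.1 + L) := by
    intro h hh
    rw [hB, Finset.mem_filter] at hh
    obtain ⟨hG, hlt⟩ := hh
    push Not at hlt
    have hle := hmin h hG
    rw [Finset.mem_Icc]
    refine ⟨hle, ?_⟩
    by_contra hcon
    push Not at hcon
    have h3 := h1 h hG h0 h0G (by omega)
    have h4 : (2 : ℝ) ^ ((L : ℕ) : ℤ) ≤ (2 : ℝ) ^ ((h.1 : ℤ) - h0.1) :=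
      zpow_le_zpow_right₀ (by norm_num) (by omega)
    rw [zpow_natCast] at h4
    linarith
  have hcard := Finset.card_eq_sum_card_fiberwise (s := B) (t := Finset.Icc h0.1 (h0.1 + L))
    (f := Prod.fst) (fun x hx => hBmem x hx)
  have hfib : ∀ b ∈ Finset.Icc h0.1 (h0.1 + L),
      ((B.filter (fun a => a.1 = b)).card : ℝ) ≤ M + 1 := by
    intro b _
    rcases (B.filter (fun a => a.1 = b)).eq_empty_or_nonempty with he | ⟨h, hh⟩
    · rw [he]
      simp
      linarith
    · rw [Finset.mem_filter, hB, Finset.mem_filter] at hh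
      obtain ⟨⟨hG, hlt⟩, hb⟩ := hh
      push Not at hlt
      have h3 := h2 h hG
      have hsub : B.filter (fun a => a.1 = b) ⊆ G.filter (fun h' => h'.1 = h.1) := by
        intro a ha
        rw [Finset.mem_filter, hB, Finset.mem_filter] at ha
        rw [Finset.mem_filter]
        exact ⟨ha.1.1, by rw [ha.2, hb]⟩
      have h4 : ((B.filter (fun a => a.1 = b)).card : ℝ) ≤
          ((G.filter (fun h' => h'.1 = h.1)).card : ℝ) := by
        exact_mod_cast Finset.card_le_card hsub
      linarith
  have hBle : (B.card : ℝ) ≤ ((L : ℝ) + 1) * (M + 1) := by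
    rw [hcard]
    push_cast
    refine (Finset.sum_le_sum hfib).trans (le_of_eq ?_)
    rw [Finset.sum_const, nsmul_eq_mul, Nat.card_Icc]
    congr 1
    have : h0.1 + L + 1 - h0.1 = L + 1 := by omega
    rw [this]
    push_cast
    ring
  have hsplit := Finset.card_filter_add_card_filter_not (s := G) (fun h => M ≤ γ h)
  have hsplit' : ((G.filter (fun h => M ≤ γ h)).card : ℝ) + (B.card : ℝ) = (G.card : ℝ) := by
    exact_mod_cast hsplit
  linarith

end Pool.Agent.Helper64.EP
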